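import Pool.Agent.H414.LT.Uch
import Pool.Agent.H414.LT.Che
import Pool.Agent.H414.DF.Eng
import Pool.Agent.H414.DF.Tau
import Pool.Agent.H414.DF.Asg
import Pool.Agent.H414.MX.Tri
import Pool.Agent.H414.MX.Ram
import Pool.Agent.H414.MX.Mass
import Pool.Agent.H414.MX.Kb
import Pool.Agent.H414.MX.Siz
import Pool.Agent.H414.MX.Unf
import Pool.Agent.H414.MX.Dif
import Pool.Agent.H414.MX.Op1
import Pool.Agent.H414.MX.Op2
import Pool.Agent.H414.MX.Spc
import Pool.Agent.H414.MX.Fra
import Pool.Agent.H414.MX.Phi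
import Pool.Agent.H414.MX.Fou
import Pool.Agent.H414.MX.Nrs
import Pool.Agent.H414.MX.Phs
import Pool.Agent.H414.MX.Dya
import Pool.Agent.H414.MX.Phm
import Pool.Agent.H414.MX.Bias
import Pool.Agent.H414.MX.Mas
import Pool.Agent.H414.MX.Pos
import Pool.Agent.H414.MX.Tot
import Pool.Agent.H414.MX.Cnt
import Pool.Agent.H414.MX.Mom
import Pool.Agent.H414.MX.Momn
import Pool.Agent.H414.MX.Wt
import Pool.Agent.H414.MX.Sel
import Pool.Agent.H414.MX.Blk
import Pool.Agent.H414.MX.Sum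
import Pool.Agent.H414.MX.Modif
import Pool.Agent.H414.MX.Uni
import Pool.Agent.H414.MX.Fej
import Pool.Agent.H414.MX.Upp
import Pool.Agent.H414.MX.Fin
import Pool.Agent.H414.MX.Any

/-!
# The exact strength of the Riemann hypothesis for all `L(s, Sym^n E ⊗ ρ)` for a fixed Frobenius trace

`a p` are integers with `(a p) ^ 2 ≤ 4 p`, as the traces of Frobenius of an elliptic curve. The Riemann
hypothesis (with the expected analytic properties) for all the `L`-functions `L(s, Sym^n E ⊗ ρ)`, `n ≥ 0`, `ρ` an Artin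
representation of the field of the `q`-division points, `q ≥ 1`, bounds, uniformly in `n` and `q`, the difference
between the sum over the primes `p ≤ x` of `U_n(a_p / √p) F(p, a_p)`, `F` a function modulo `q`, and the expected value
by `(n + 1) (∑ |F| ^ 2) ^ (1 / 2) x ^ (1 / 2 + ε)`, the sum being over the Galois group `GL_2(ZMod q)`, that is by
`(n + 1) q * l2 F * x ^ (1 / 2 + ε)`. This is `HasBound`; expected values are taken with respect to laws `μ p` on
the integers, and the result holds for all reasonable laws (`IsRef`), for instance for the uniform laws.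

1. These bounds give `C x ^ (3 / 4 + ε)` for the number of the primes `x < p ≤ 2 x` with `|a p| ≤ x ^ (1 / 4)`
(`x = 2 ^ k`); only `q = 1` is used.

2. This is sharp, although `n` and `q` are now used together: for arbitrary twists `c i p` of absolute value at
most `1` (for instance all Dirichlet characters and all `p ^ (i t)`, `t` rational), for `δ > 0` and for arbitrary
numbers `f k t` with sum at most `2 ^ (k (3 / 4 - δ))` over `|t| ≤ k` there is a system `a` with all the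
bounds, such that for all large `k` exactly `f k t` of the primes `2 ^ k < p ≤ 2 ^ (k + 1)` have
`a p = t`, for all `t` with `|t| ≤ k`.

3. In the true order of magnitude everything is possible: for integers `b p` such that at most
`C 2 ^ (k (1 / 2 + ε))` of the primes `2 ^ k < p ≤ 2 ^ (k + 1)` have `|b p| ≤ k` there is a system `a` with all the
bounds such that for all large `k`, all these primes `p` and all `|t| ≤ k`, `a p = t` if and only if `b p = t`. So the
sets `{p : a p = t}` can be arbitrary disjoint sets with `O (x ^ (1 / 2 + ε))` elements up to `x`, whether they satisfy the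
asymptotic formula of Lang and Trotter, with whatever constants, or not.

So neither `π_{E,r}(x) = O (x ^ s)` with `s < 3 / 4` nor any lower bound nor the Lang-Trotter asymptotic formula
follows from these hypotheses, nor any relation between the sets of primes for different `r`.
-/

set_option autoImplicit false

namespace Pool.Agent.Results.MP_d74fca_nt.ExactExponentUniform

open Finset
open Pool.Agent.H414.LT (blk)
open Pool.Agent.H414.MX

/-- The exact strength of the Riemann hypothesis for all the `L(s, Sym^n E ⊗ ρ)`, uniformly in `n` and in the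
level of `ρ`, in the Lang-Trotter problem for a fixed trace: the exponent `3 / 4`. -/
theorem result :
    IsRef (fun p b => if b ∈ box (4 * p) then 1 / ((box (4 * p)).card : ℝ) else 0) ∧
    ∀ μ : ℕ → ℤ → ℝ, IsRef μ →
      (∀ a : ℕ → ℤ, IsSystem a → HasBound μ (fun _ _ => 1) a →
        ∀ ε : ℝ, 0 < ε → ∃ C : ℝ, ∀ k : ℕ,
          (((blk k).filter fun p => |(a p : ℝ)| ≤ (2 : ℝ) ^ ((k : ℝ) / 4)).card : ℝ) ≤
            C * (2 : ℝ) ^ ((3 / 4 + ε) * (k : ℝ))) ∧
      (∀ c : ℕ → ℕ → ℂ, (∀ i p, ‖c i p‖ ≤ 1) →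
        (∀ δ : ℝ, 0 < δ → ∀ f : ℕ → ℤ → ℕ,
          (∀ k, ((∑ t ∈ box (k ^ 2), f k t : ℕ) : ℝ) ≤ (2 : ℝ) ^ ((3 / 4 - δ) * (k : ℝ))) →
          ∃ a : ℕ → ℤ, IsSystem a ∧ HasBound μ c a ∧
            ∃ k₀ : ℕ, ∀ k, k₀ ≤ k → ∀ t ∈ box (k ^ 2),
              ((blk k).filter fun p => a p = t).card = f k t) ∧
        (∀ b : ℕ → ℤ,
          (∀ ε : ℝ, 0 < ε → ∃ C : ℝ, ∀ k : ℕ,
            (((blk k).filter fun p => b p ∈ box (k ^ 2)).card : ℝ) ≤ C * (2 : ℝ) ^ ((1 / 2 + ε) * (k : ℝ))) →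
          ∃ a : ℕ → ℤ, IsSystem a ∧ HasBound μ c a ∧
            ∃ k₀ : ℕ, ∀ k, k₀ ≤ k → ∀ p ∈ blk k, ∀ t ∈ box (k ^ 2), a p = t ↔ b p = t)) := by
  have hUS := Pool.Agent.H414.LT.us
  have hUB := Pool.Agent.H414.LT.ub
  have hUD := Pool.Agent.H414.LT.ud
  have hCHE := Pool.Agent.H414.LT.che
  have hTAU := Pool.Agent.H414.DF.tau
  have hTRI : S_TRI := tri'
  have hRAM : S_RAM := ram'
  have hKB : S_KB := kb hTRI hRAM
  have hMASS : S_MASS := mass hTRI
  have hSIZ : S_SIZ := siz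
  have hUNF : S_UNF := unf hSIZ hRAM hKB
  have hDIF : S_DIF := dif hUB hUD
  have hOP1 : S_OP1 := op1 hTRI
  have hOP2 : S_OP2 := op2 hTRI
  have hSPC : S_SPC := spc
  have hFRA : S_FRA := fra
  have hPHI : S_PHI := phi hUS
  have hNRS : S_NRS := nrs hSIZ hDIF hOP2 hSPC
  have hPHS : S_PHS := phs hSIZ hDIF hOP1 hFRA hNRS
  have hDYA : S_DYA := dya hSIZ hOP1 hSPC hFRA
  have hPHM : S_PHM := phm hSIZ hPHI hDYA
  have hBIAS : S_BIAS := bias hUNF hSIZ hDIF hPHS hPHM fou
  have hMOM : S_MOM := mom hUB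
  have hCON : ∀ (δ : ℝ), 0 < δ → ∀ f : ℕ → ℤ → ℕ,
      (∀ k, ((∑ t ∈ T k, f k t : ℕ) : ℝ) ≤ Pool.Agent.H414.DF.e2 (k * (3 / 4 - δ))) →
      ∀ (μ : ℕ → ℤ → ℝ) (c : ℕ → ℕ → ℂ), IsRef μ → (∀ i p, ‖c i p‖ ≤ 1) →
      ∃ a : ℕ → ℤ, IsSystem a ∧ HasBound μ c a ∧
      ∃ k₁ : ℕ, ∀ k, k₁ ≤ k → ∀ t ∈ T k, ((blk k).filter fun p => a p = t).card = f k t :=
    fun δ hδ f hf μ c hμ hc =>
      construct (mas hCHE hSIZ hKB) (pos hKB hTAU) (tot hKB hMASS) (cnt hKB hTAU)
        (momn hDIF hKB hTAU hSIZ hMOM) (sel Pool.Agent.H414.DF.eng hUB wt) (blk' hBIAS) sum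
        (modif Pool.Agent.H414.DF.asg hCHE) μ hμ c hc δ hδ f hf
  refine ⟨uni, fun μ hμ => ⟨fun a ha hb ε hε => ?_,
    fun c hc => ⟨fun δ hδ f hf => ?_, fun b hb => ?_⟩⟩⟩
  · obtain ⟨C, hC⟩ := upp hUS (fej hUS) μ hμ a ha hb ε hε
    refine ⟨C, fun k => (hC k).trans (le_of_eq ?_)⟩
    unfold Pool.Agent.H414.DF.e2
    rw [mul_comm (k : ℝ)]
  · refine hCON δ hδ f (fun k => ?_) μ c hμ hc
    refine (hf k).trans (le_of_eq ?_)
    unfold Pool.Agent.H414.DF.e2
    rw [mul_comm (k : ℝ)]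
  · refine anySets (hCON (1 / 4) (by norm_num)) μ hμ c hc b fun ε hε => ?_
    obtain ⟨C, hC⟩ := hb ε hε
    refine ⟨C, fun k => (hC k).trans (le_of_eq ?_)⟩
    unfold Pool.Agent.H414.DF.e2
    rw [mul_comm (k : ℝ)]

end Pool.Agent.Results.MP_d74fca_nt.ExactExponentUniform
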