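import Pool.Agent.H533.JT.Main
import Pool.Agent.H533.JQ.One

/-!
# The joint law of Lang and Trotter for systems of curves with complex multiplication by `ℤ[i]` or `ℤ[2i]`, in progressions

`E_j`, `j = 0, …, k`, are elliptic curves over `ℚ` with complex multiplication by an order of `ℚ(i)`: `y² = x³ - D_j x` (all
curves with `j = 1728`) or `y² = x³ - 11 D_j² x + 14 D_j³` (all curves with `j = 287496`), `D_j` any nonzero integers. For all
`N`, for all but `R / (log R)^A` of the integers `t`, `|t| ≤ R`: for all choices of the signs and all `c` coprime to `N` the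
number of the primes `p ≤ x`, `p ≡ c` modulo `N`, with `a_p(E_j) = ± t` for all `j` is `C ∫_2^√x du / (2 log u)` with an error
`√x / (log x)^A`, uniformly for `R ^ (2 + ε) ≤ x ≤ R ^ (3 - ε)`, with a constant `C` of the form of Lang and Trotter.

For the curves isogenous to `y² = x³ - D² x` the constants are given explicitly in the second part.

The library theorem `MP_d74fca_nt.CongruentNumberCurves` (helper782 and others; project GN) is the case of one curve
`y² = x³ - D² x` without a progression; its main tool `c_mainx` (primes `a² + m²` in classes, for almost all `a`) is used here.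
New: the periodicity of the quartic residue symbol (quartic reciprocity for rational numerators, with Gauss sums in
characteristic `ℓ`), by which the trace of `y² = x³ - D x` at `p = a² + m²` is determined by `(a, m)` modulo `16 D`.

Parts proved by helpers 345 (character sums of 2-isogenous curves), 127, 874, 501, 348, 878, 370, 600, 30 (project JQ).
-/

set_option autoImplicit false

namespace Pool.Agent.Results.MP_d74fca_nt.JointTraces

open Pool.Agent.H533.JT Pool.Agent.H533.JQ

/-- (1) Let `E_0, …, E_k` be curves of `CM` with the numbers `D_j ≠ 0`, `N ≥ 1`, `Q = 4 N ∏ |D_j|`.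
(a) If `|r_i| ≠ |r_j|` for some `i, j`, then at most one prime is counted for the vector `r` of traces.
(b) For all `ε > 0`, `A` and all large `R`, all but at most `R / (log R) ^ A` of the integers `t`, `|t| ≤ R`, satisfy: for every
vector `r` with `|r_j| = |t|` and every `c` coprime to `N` there is a constant `C ≥ 0`, given by `IsConstantQ` and positive if
and only if `classesQ` is, with `|countQ - C ∫_2^√x du / (2 log u)| ≤ √x / (log x) ^ A` for `R ^ (2 + ε) ≤ x ≤ R ^ (3 - ε)`.
(2) The same for curves of `Gauss` with the explicit constants of `IsConstant`; in (a) no prime is counted. -/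
theorem result :
    (∀ (k : ℕ) (E : Fin (k + 1) → ℤ × ℤ) (D : Fin (k + 1) → ℤ), (∀ j, CM (E j) (D j)) → ∀ N : ℕ, 1 ≤ N →
      (∀ (r : Fin (k + 1) → ℤ) (i j : Fin (k + 1)), |r i| ≠ |r j| → ∀ (c : ℕ) (x : ℝ),
        countQ E (4 * (4 * (N * ∏ j, (D j).natAbs))) N c r x ≤ 1) ∧
      ∀ (ε : ℝ) (A : ℕ), 0 < ε → ∃ R₀ : ℝ, ∀ R : ℝ, R₀ ≤ R →
        (exceptionsQ E (4 * (N * ∏ j, (D j).natAbs)) N ε A R : ℝ) ≤ R / Real.log R ^ A) ∧
    (∀ (k : ℕ) (E : Fin (k + 1) → ℤ × ℤ) (D : Fin (k + 1) → ℕ), (∀ j, Gauss (E j) (D j)) → ∀ N : ℕ, 1 ≤ N →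
      (∀ (r : Fin (k + 1) → ℤ) (i j : Fin (k + 1)), |r i| ≠ |r j| → ∀ (c : ℕ) (x : ℝ), count E D N c r x = 0) ∧
      ∀ (ε : ℝ) (A : ℕ), 0 < ε → ∃ R₀ : ℝ, ∀ R : ℝ, R₀ ≤ R → (exceptions E D N ε A R : ℝ) ≤ R / Real.log R ^ A) :=
  ⟨fun _ _ _ hE _ hN => ⟨fun r _ _ h c x => count_le_one hE c r x h, fun ε A hε => main_CM hE hN ε A hε⟩,
    fun _ _ _ hE N hN => ⟨fun r _ _ h c x => count_zero_of_ne hE N c r x h, fun ε A hε =>
      Pool.Agent.H533.JT.main hE hN ε A hε⟩⟩

end Pool.Agent.Results.MP_d74fca_nt.JointTraces
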