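import Mathlib
import Pool.Agent.H537.LX.Negf
import Pool.Agent.H537.LX.Cor

/-!
# The sharp threshold for the law of the fixed Frobenius traces in quadratic twist families

`piT A B t x` (library, `Pool.Graph.R_seed8.W406.TW.LT`) is the number of primes `p ≤ x` not dividing
`2 (4 A³ + 27 B²)` at which the trace of Frobenius `ap A B p` of `y² = x³ + A x + B` is equal to `t`. For the
twist `y² = x³ + A D² x + B D³` these are primes not dividing `2 D (4 A³ + 27 B²)`. For squarefree `D` the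
other primes are primes of bad reduction or divide `2 (4 A³ + 27 B²)`, so that this is the function of the
problem, up to an error bounded in terms of `A`, `B`. Let `t ≠ 0` and let `m = piT A B t x + piT A B (-t) x` be
the number of the primes up to `x` where the curve itself has trace `± t`. The twist by `D` has trace `± t` at
the same primes (except those which divide `D`), and the count of the twist at `t` is expected to be `m / 2`.

It is known (library, `TraceSigns`) that for some large `C = C(ε)` and small `c > 0`, for all but `N ^ (1 - c)`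
of the `|D| ≤ N` the count of the twist is `m / 2` up to `√m x ^ ε` for all `(log N) ^ C ≤ x ≤ N ^ c`, `t ≠ 0`.
We show that the threshold is exactly `x = (log N) ^ (1 / (2 ε))`:

1. each `C > 1 / (2 ε)` is admissible;
2. for each `C < 1 / (2 ε)` and `δ > 0`, if `N` is large then at each `x ≤ (log N) ^ C`, for each curve and
   each `t ≠ 0` with `m ≥ 2400 x ^ (2 ε)` (for `m ≤ x ^ (2 ε)` the error `√m x ^ ε` is trivially admissible)
   there are at least `N ^ (1 - δ)` squarefree `1 ≤ D ≤ N` for which the count at `t` is less than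
   `m / 2 - √m x ^ ε`, and less than the count at `-t` by more than `2 √m x ^ ε` (with `-t` for `t`: the same
   in the other direction);
3. both follow from the size of the moments of the sum of `± (D / p)` over the `m` primes, of orders up to
   `c log N / log x`. The lower bound is: for `1 ≤ k ≤ m / 2` and `N ≥ x ^ (24 k)` at least `N / x ^ (9 k)` of
   the squarefree `1 ≤ D ≤ N` satisfy `piT_D t x - piT_D (-t) x ≥ √(k m) / 17`;
4. if `N ≥ x ^ (12 m)` then all the `2 ^ m` patterns of the signs of the traces at the `m` primes occur, each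
   for at least `N / (256 * 3 ^ m)` of the squarefree `1 ≤ D ≤ N`; in particular the count at `t` may be `m`,
   or `0`;
5. let the curve satisfy the law of Lang and Trotter at `± t` (it suffices that `m log x / √x` tends to some
   `K > 0`). Then for all but `N ^ (1 - c)` of the twists the law with the constant `K / 2` holds up to `η` for
   all `(log N) ^ (2 + η) ≤ x ≤ N ^ c`, but at least `N ^ (1 - δ)` of the squarefree twists have no prime up to
   `κ (log N) ^ 2` counted at `t` at all: the threshold of uniformity of the law of Lang and Trotter in the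
   family of the quadratic twists is `x = (log N) ^ 2`, up to `(log N) ^ η`.
-/

namespace Pool.Agent.Results.MP_d74fca_nt.TwistThreshold

open Pool.Agent.W406.TW Pool.Agent.H537.LX Filter Topology

theorem result :
    -- 1. above the threshold
    (∀ ε : ℝ, 0 < ε →
      (∀ C : ℝ, 1 / (2 * ε) < C → ∃ c : ℝ, 0 < c ∧ ∃ N₀ : ℕ, ∀ N : ℕ, N₀ ≤ N → ∀ A B : ℤ,
        ({D : ℤ | D ≠ 0 ∧ |D| ≤ N ∧ ∃ x : ℕ, (Real.log N) ^ C ≤ x ∧ (x : ℝ) ≤ (N : ℝ) ^ c ∧
          ∃ t : ℤ, t ≠ 0 ∧ √((piT A B t x : ℝ) + piT A B (-t) x) * (x : ℝ) ^ ε <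
            |(piT (A * D ^ 2) (B * D ^ 3) t x : ℝ) - (piT A B t x + piT A B (-t) x) / 2|}.ncard : ℝ) ≤
          (N : ℝ) ^ (1 - c)) ∧
      -- 2. below the threshold
      (∀ C δ : ℝ, 0 < C → C < 1 / (2 * ε) → 0 < δ → ∃ N₀ : ℕ, ∀ N : ℕ, N₀ ≤ N →
        ∀ x : ℕ, 1 ≤ x → (x : ℝ) ≤ (Real.log N) ^ C → ∀ A B t : ℤ, t ≠ 0 →
        2400 * (x : ℝ) ^ (2 * ε) ≤ (piT A B t x : ℝ) + piT A B (-t) x →
        (N : ℝ) ^ (1 - δ) ≤ ({D : ℕ | 1 ≤ D ∧ D ≤ N ∧ Squarefree D ∧
          2 * (√((piT A B t x : ℝ) + piT A B (-t) x) * (x : ℝ) ^ ε) <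
            (piT (A * (D : ℤ) ^ 2) (B * (D : ℤ) ^ 3) (-t) x : ℝ) -
              piT (A * (D : ℤ) ^ 2) (B * (D : ℤ) ^ 3) t x ∧
          (piT (A * (D : ℤ) ^ 2) (B * (D : ℤ) ^ 3) t x : ℝ) < (piT A B t x + piT A B (-t) x) / 2 -
            √((piT A B t x : ℝ) + piT A B (-t) x) * (x : ℝ) ^ ε}.ncard : ℝ))) ∧
    -- 3. large deviations
    (∀ A B t : ℤ, t ≠ 0 → ∀ x k N : ℕ, 1 ≤ k → 2 * k ≤ piT A B t x + piT A B (-t) x →
      x ^ (24 * k) ≤ N →
      (N : ℝ) ≤ (x : ℝ) ^ (9 * k) * ({D : ℕ | 1 ≤ D ∧ D ≤ N ∧ Squarefree D ∧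
        √((k : ℝ) * (piT A B t x + piT A B (-t) x)) / 17 ≤
          (piT (A * (D : ℤ) ^ 2) (B * (D : ℤ) ^ 3) t x : ℝ) -
            piT (A * (D : ℤ) ^ 2) (B * (D : ℤ) ^ 3) (-t) x}.ncard : ℝ)) ∧
    -- 4. all patterns of signs
    (∀ A B t : ℤ, t ≠ 0 → ∀ x N : ℕ, ∀ S : Set ℕ, x ^ (12 * (piT A B t x + piT A B (-t) x)) ≤ N →
      (N : ℝ) ≤ 256 * 3 ^ (piT A B t x + piT A B (-t) x) * ({D : ℕ | 1 ≤ D ∧ D ≤ N ∧ Squarefree D ∧
        ∀ p : ℕ, p ≤ x → p.Prime → ¬ ((p : ℤ) ∣ 2 * (4 * A ^ 3 + 27 * B ^ 2)) →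
          (ap A B p = t ∨ ap A B p = -t) → ¬ ((p : ℤ) ∣ D) ∧
          (p ∈ S → ap (A * (D : ℤ) ^ 2) (B * (D : ℤ) ^ 3) p = t) ∧
          (p ∉ S → ap (A * (D : ℤ) ^ 2) (B * (D : ℤ) ^ 3) p = -t)}.ncard : ℝ)) ∧
    -- 5. curves which satisfy the law of Lang and Trotter
    (∀ A B t : ℤ, t ≠ 0 → ∀ K : ℝ, 0 < K →
      Tendsto (fun x : ℕ => ((piT A B t x : ℝ) + piT A B (-t) x) * Real.log x / √x) atTop (𝓝 K) →
      (∀ η : ℝ, 0 < η → ∃ c : ℝ, 0 < c ∧ ∃ N₀ : ℕ, ∀ N : ℕ, N₀ ≤ N →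
        ({D : ℤ | D ≠ 0 ∧ |D| ≤ N ∧ ∃ x : ℕ, (Real.log N) ^ (2 + η) ≤ x ∧ (x : ℝ) ≤ (N : ℝ) ^ c ∧
          η < |(piT (A * D ^ 2) (B * D ^ 3) t x : ℝ) * Real.log x / √x - K / 2|}.ncard : ℝ) ≤
          (N : ℝ) ^ (1 - c)) ∧
      (∃ κ : ℝ, 0 < κ ∧ ∀ δ : ℝ, 0 < δ → ∃ N₀ : ℕ, ∀ N : ℕ, N₀ ≤ N →
        (N : ℝ) ^ (1 - δ) ≤ ({D : ℕ | 1 ≤ D ∧ D ≤ N ∧ Squarefree D ∧
          ∀ x : ℕ, (x : ℝ) ≤ κ * (Real.log N) ^ 2 →
            piT (A * (D : ℤ) ^ 2) (B * (D : ℤ) ^ 3) t x = 0}.ncard : ℝ))) := by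
  refine ⟨fun ε hε => ⟨fun C hC => above ε C hε hC, fun C δ hC0 hC hδ => below' ε C δ hε hC0 hC hδ⟩,
    fun A B t ht x k N hk hM hN => below_gen' A B t ht x k N hk hM hN,
    fun A B t ht x N S hN => traces A B t ht x N S hN,
    fun A B t ht K hK h => ⟨fun η hη => cor_above A B t ht K hK h η hη, cor_below A B t ht K hK h⟩⟩

end Pool.Agent.Results.MP_d74fca_nt.TwistThreshold
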